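import Pool.Agent.N287.WF.Stm

/-! Closed Reeb orbits when the Reeb field is tangent to a fibration by closed surfaces: the two
properties of selections. -/

set_option autoImplicit false

open scoped Topology ContDiff Manifold
open Set Filter Bundle Pool.Agent.N287.WF

noncomputable section

namespace Pool.Agent.N427.WF

universe u v w

section

variable {E : Type u} [NormedAddCommGroup E] [NormedSpace ℝ E]
  {M : Type v} [TopologicalSpace M] [ChartedSpace E M]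

/-- the derivative vanishes at a local extremum -/
theorem mfderiv_extr {h : M → ℝ} {x₀ : M} (he : IsLocalExtr h x₀) :
    mfderiv 𝓘(ℝ, E) 𝓘(ℝ, ℝ) h x₀ = 0 := by
  by_cases hd : MDifferentiableAt 𝓘(ℝ, E) 𝓘(ℝ, ℝ) h x₀
  · rw [hd.mfderiv]
    simp only [modelWithCornersSelf_coe, Set.range_id]
    rw [fderivWithin_univ]
    apply IsLocalExtr.fderiv_eq_zero
    have hc : ContinuousAt (extChartAt 𝓘(ℝ, E) x₀).symm ((extChartAt 𝓘(ℝ, E) x₀) x₀) :=
      continuousAt_extChartAt_symm x₀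
    have e1 : (extChartAt 𝓘(ℝ, E) x₀).symm ((extChartAt 𝓘(ℝ, E) x₀) x₀) = x₀ :=
      extChartAt_to_inv x₀
    have e2 : writtenInExtChartAt 𝓘(ℝ, E) 𝓘(ℝ, ℝ) x₀ h = h ∘ (extChartAt 𝓘(ℝ, E) x₀).symm := by
      rfl
    rw [e2]
    rcases he with he | he
    · left
      have := hc.tendsto
      rw [e1] at this
      have h2 := this.eventually he
      filter_upwards [h2] with z hz
      simp only [Function.comp_apply]
      rw [e1]
      exact hz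
    · right
      have := hc.tendsto
      rw [e1] at this
      have h2 := this.eventually he
      filter_upwards [h2] with z hz
      simp only [Function.comp_apply]
      rw [e1]
      exact hz
  · exact mfderiv_zero_of_not_mdifferentiableAt hd

/-- a function with derivative zero near a point is constant near the point -/
theorem loc_const [IsManifold 𝓘(ℝ, E) ∞ M] {h : M → ℝ} {x₀ : M}
    (he : ∀ᶠ x in 𝓝 x₀, MDifferentiableAt 𝓘(ℝ, E) 𝓘(ℝ, ℝ) h x ∧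
      mfderiv 𝓘(ℝ, E) 𝓘(ℝ, ℝ) h x = 0) : ∀ᶠ x in 𝓝 x₀, h x = h x₀ := by
  have hc : ContinuousAt (extChartAt 𝓘(ℝ, E) x₀).symm ((extChartAt 𝓘(ℝ, E) x₀) x₀) :=
    continuousAt_extChartAt_symm x₀
  have e1 : (extChartAt 𝓘(ℝ, E) x₀).symm ((extChartAt 𝓘(ℝ, E) x₀) x₀) = x₀ :=
    extChartAt_to_inv x₀
  have ht : Tendsto (extChartAt 𝓘(ℝ, E) x₀).symm (𝓝 ((extChartAt 𝓘(ℝ, E) x₀) x₀)) (𝓝 x₀) := by
    have := hc.tendsto
    rwa [e1] at this
  have h1 : ∀ᶠ z in 𝓝 ((extChartAt 𝓘(ℝ, E) x₀) x₀), z ∈ (extChartAt 𝓘(ℝ, E) x₀).target :=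
    extChartAt_target_mem_nhds x₀
  obtain ⟨r, hr, hball⟩ := Metric.eventually_nhds_iff_ball.1 ((ht.eventually he).and h1)
  obtain ⟨H, hH⟩ : ∃ H : E → ℝ, H = h ∘ (extChartAt 𝓘(ℝ, E) x₀).symm := ⟨_, rfl⟩
  have hz : ∀ z ∈ Metric.ball ((extChartAt 𝓘(ℝ, E) x₀) x₀) r, DifferentiableAt ℝ H z ∧
      fderiv ℝ H z = 0 := by
    intro z hz
    obtain ⟨⟨a1, a2⟩, a3⟩ := hball z hz
    have hs : MDifferentiableAt 𝓘(ℝ, E) 𝓘(ℝ, E) (extChartAt 𝓘(ℝ, E) x₀).symm z := by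
      have h2 : ContMDiffOn 𝓘(ℝ, E) 𝓘(ℝ, E) ∞ (extChartAt 𝓘(ℝ, E) x₀).symm
          (extChartAt 𝓘(ℝ, E) x₀).target := contMDiffOn_extChartAt_symm x₀
      have h3 : (extChartAt 𝓘(ℝ, E) x₀).target ∈ 𝓝 z := by
        have ho : IsOpen (extChartAt 𝓘(ℝ, E) x₀).target := isOpen_extChartAt_target x₀
        exact ho.mem_nhds a3
      exact (h2.contMDiffAt h3).mdifferentiableAt (by simp)
    have h4 : MDifferentiableAt 𝓘(ℝ, E) 𝓘(ℝ, ℝ) H z := by
      rw [hH]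
      exact a1.comp z hs
    refine ⟨h4.differentiableAt, ?_⟩
    rw [← mfderiv_eq_fderiv, hH, mfderiv_comp z a1 hs, a2]
    rfl
  have hconst : ∀ z ∈ Metric.ball ((extChartAt 𝓘(ℝ, E) x₀) x₀) r,
      H z = H ((extChartAt 𝓘(ℝ, E) x₀) x₀) := by
    intro z hz'
    refine Metric.isOpen_ball.is_const_of_fderiv_eq_zero (𝕜 := ℝ) ?_
      (fun y hy => (hz y hy).1.differentiableWithinAt) (fun y hy => (hz y hy).2) hz'
      (Metric.mem_ball_self hr)
    exact (convex_ball _ _).isPreconnected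
  have hcx : ContinuousAt (extChartAt 𝓘(ℝ, E) x₀) x₀ := continuousAt_extChartAt x₀
  have h5 : ∀ᶠ x in 𝓝 x₀, (extChartAt 𝓘(ℝ, E) x₀) x ∈ Metric.ball ((extChartAt 𝓘(ℝ, E) x₀) x₀) r :=
    hcx.eventually (Metric.ball_mem_nhds _ hr)
  have h6 : ∀ᶠ x in 𝓝 x₀, x ∈ (extChartAt 𝓘(ℝ, E) x₀).source := extChartAt_source_mem_nhds x₀
  filter_upwards [h5, h6] with x hx1 hx2
  have := hconst _ hx1
  rw [hH] at this
  simp only [Function.comp_apply] at this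
  rwa [(extChartAt 𝓘(ℝ, E) x₀).left_inv hx2, e1] at this

end

/-- continuous selections are smooth -/
theorem sel_smooth {E : Type u} [NormedAddCommGroup E] [NormedSpace ℝ E]
    {M : Type v} [TopologicalSpace M] [ChartedSpace E M] {Λ : M → AddSubgroup (ℝ × ℝ)}
    (hdisc : ∃ ε > 0, ∀ x, ∀ γ ∈ Λ x, ‖γ‖ < ε → γ = 0)
    (hsel : ∀ x₀, ∀ γ₀ ∈ Λ x₀, ∃ γ : M → ℝ × ℝ, γ x₀ = γ₀ ∧ ∀ᶠ x in 𝓝 x₀,
        ContMDiffAt 𝓘(ℝ, E) 𝓘(ℝ, ℝ × ℝ) ∞ γ x ∧ γ x ∈ Λ x) {x₀ : M} {γ : M → ℝ × ℝ}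
    (h : Sel Λ γ x₀) : ∀ᶠ x in 𝓝 x₀, ContMDiffAt 𝓘(ℝ, E) 𝓘(ℝ, ℝ × ℝ) ∞ γ x ∧
      ∀ᶠ y in 𝓝 x, γ y ∈ Λ y := by
  obtain ⟨ε, hε, hd⟩ := hdisc
  have h1 := eventually_eventually_nhds.2 h
  filter_upwards [h1] with x hx
  have hx0 := hx.self_of_nhds
  obtain ⟨g, hg1, hg2⟩ := hsel x (γ x) hx0.2
  have hg0 := hg2.self_of_nhds
  have hcont : ContinuousAt (fun y => ‖γ y - g y‖) x :=
    (hx0.1.sub hg0.1.continuousAt).norm
  have hval : ‖γ x - g x‖ < ε := by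
    rw [hg1, sub_self, norm_zero]
    exact hε
  have h3 : ∀ᶠ y in 𝓝 x, ‖γ y - g y‖ < ε := hcont.eventually_lt continuousAt_const hval
  have h4 : γ =ᶠ[𝓝 x] g := by
    filter_upwards [h3, hx, hg2] with y hy1 hy2 hy3
    have := hd y (γ y - g y) ((Λ y).sub_mem hy2.2 hy3.2) hy1
    exact sub_eq_zero.1 this
  exact ⟨hg0.1.congr_of_eventuallyEq h4, hx.mono fun y hy => hy.2⟩

/-- the derivative of the first coordinate -/
theorem fst_diff {E : Type u} [NormedAddCommGroup E] [NormedSpace ℝ E]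
    {M : Type v} [TopologicalSpace M] [ChartedSpace E M] {γ : M → ℝ × ℝ} {x : M}
    (h : ContMDiffAt 𝓘(ℝ, E) 𝓘(ℝ, ℝ × ℝ) ∞ γ x) :
    MDifferentiableAt 𝓘(ℝ, E) 𝓘(ℝ, ℝ) (fun y => (γ y).1) x := by
  have h1 : ContMDiffAt 𝓘(ℝ, ℝ × ℝ) 𝓘(ℝ, ℝ) ∞ (fun p : ℝ × ℝ => p.1) (γ x) :=
    contDiff_fst.contDiffAt.contMDiffAt
  exact (ContMDiffAt.comp x h1 h).mdifferentiableAt (by simp)

/-- **The two properties of selections.** -/
theorem selProp : SelPropStm.{u, v} := by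
  intro E _ _ _ M _ _ _ θ Λ hθ hdisc hsel hder
  refine ⟨?_, ?_⟩
  · intro x₀ γ γ' ρ h h' hρ
    have h1 := sel_smooth (E := E) hdisc hsel h
    have h2 := sel_smooth (E := E) hdisc hsel h'
    have h3 : ∀ᶠ x in 𝓝 x₀, (γ x).1 - ρ * (γ' x).1 = (γ x₀).1 - ρ * (γ' x₀).1 := by
      refine loc_const (E := E) (h := fun x => (γ x).1 - ρ * (γ' x).1) ?_
      filter_upwards [h1, h2, hρ] with x hx1 hx2 hx3
      have d1 := fst_diff hx1.1
      have d2 := fst_diff hx2.1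
      have d3 : MDifferentiableAt 𝓘(ℝ, E) 𝓘(ℝ, ℝ) (fun x => ρ * (γ' x).1) x := d2.const_smul ρ
      refine ⟨d1.sub d3, ?_⟩
      ext v
      have e1 := hder x γ hx1.1 hx1.2 v
      have e2 := hder x γ' hx2.1 hx2.2 v
      obtain ⟨D1, hD1⟩ : ∃ D1 : ℝ, D1 = mfderiv 𝓘(ℝ, E) 𝓘(ℝ, ℝ) (fun x => (γ x).1) x v := ⟨_, rfl⟩
      obtain ⟨D2, hD2⟩ : ∃ D2 : ℝ, D2 = mfderiv 𝓘(ℝ, E) 𝓘(ℝ, ℝ) (fun x => (γ' x).1) x v := ⟨_, rfl⟩
      have e3 : (mfderiv 𝓘(ℝ, E) 𝓘(ℝ, ℝ) (fun x => (γ x).1 - ρ * (γ' x).1) x v : ℝ) =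
          D1 - ρ * D2 := by
        have a1 := d1.hasMFDerivAt
        have a2 := d2.hasMFDerivAt
        have a3 := (a1.sub (a2.const_smul ρ)).mfderiv
        rw [hD1, hD2]
        exact congrArg (fun L : E →L[ℝ] ℝ => L v) a3
      have e4 : D1 = - (γ x).2 * θ x v := hD1.trans e1
      have e5 : D2 = - (γ' x).2 * θ x v := hD2.trans e2
      have e6 : D1 - ρ * D2 = 0 := by
        rw [e4, e5, hx3]
        ring
      exact e3.trans e6
    exact h3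
  · intro x₀ γ h hc ha hmin
    have h1 := (sel_smooth (E := E) hdisc hsel h).self_of_nhds
    have hcont : ContinuousAt (fun x => (γ x).1) x₀ := (fst_diff h1.1).continuousAt
    have hext : IsLocalExtr (fun x => (γ x).1) x₀ := by
      rcases lt_or_gt_of_ne ha with hneg | hpos
      · right
        have h3 : ∀ᶠ x in 𝓝 x₀, (γ x).1 < 0 := hcont.eventually_lt continuousAt_const hneg
        filter_upwards [h3, hmin] with x hx1 hx2
        rw [abs_of_neg hneg, abs_of_neg hx1] at hx2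
        show (γ x).1 ≤ (γ x₀).1
        linarith
      · left
        have h3 : ∀ᶠ x in 𝓝 x₀, 0 < (γ x).1 := continuousAt_const.eventually_lt hcont hpos
        filter_upwards [h3, hmin] with x hx1 hx2
        rw [abs_of_pos hpos, abs_of_pos hx1] at hx2
        exact hx2
    have h4 := mfderiv_extr (E := E) hext
    apply hθ x₀
    ext v
    have h5 := hder x₀ γ h1.1 h1.2 v
    rw [h4] at h5
    have h6 : (0 : ℝ) = - (γ x₀).2 * θ x₀ v := h5
    have h7 : θ x₀ v = 0 := by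
      rcases mul_eq_zero.1 h6.symm with h8 | h8
      · exact absurd (neg_eq_zero.1 h8) hc
      · exact h8
    exact h7

end Pool.Agent.N427.WF
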